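import Pool.Agent.W5h76.FC.Comb

/-!
# MP_cb855e_lc — the class of FC[REG]-CQ languages is closed under union
-/

namespace Pool.Agent.Results.MP_cb855e_lc.UnionClosed

open Pool.Agent.W5h76.FC

/-- Over every finite alphabet `A`, every finite union of languages of FC[REG] conjunctive queries
is the language of a single FC[REG] conjunctive query. The variables are the natural numbers and
the distinguished variable is `0`. -/
theorem result {A : Type} [Fintype A] (Φ : List (CQ ℕ A)) :
    ∃ φ : CQ ℕ A, lang 0 φ = {u | ∃ ψ ∈ Φ, u ∈ lang 0 ψ} :=
  union_closed Φ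

end Pool.Agent.Results.MP_cb855e_lc.UnionClosed
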